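import Pool.Agent.L0h82.GT.Stm

set_option autoImplicit false

/-!
# Board GT (helper82), module SIX: transport of the codes of the totals
-/

namespace Pool.Agent.L0h81.GT

open Pool.Agent.L0h82.GT

universe u

theorem tot_congr {X : Type u} (G : Subgroup (Equiv.Perm X)) {u v : ℕ → X} {n : ℕ}
    (h : ∀ k < 5, u k = v k) (hu : Tot G u n) : Tot G v n := by
  refine ⟨hu.1, fun y a b c d hy ha hb hc hd hn => ?_⟩
  rw [← h y hy, ← h a ha, ← h b hb, ← h c hc, ← h d hd]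
  exact hu.2 y a b c d hy ha hb hc hd hn

theorem sk_lt {i k : ℕ} (hk : k < 5) : sk i k < 6 := by
  unfold sk
  split_ifs <;> omega

theorem okE_spec {e : ℕ × ℕ} (h : okE e = true) : ∀ i < 6, ∀ n < 6, ac e.2 i n < 6 ∧
    ∀ y < 5, ∀ a < 5, sg e.1 i (mt (ac e.2 i n) y a) = mt n (sg e.1 i y) (sg e.1 i a) := by
  intro i hi n hn
  unfold okE at h
  rw [List.all_eq_true] at h
  have h1 := h i (List.mem_range.2 hi)
  rw [List.all_eq_true] at h1
  have h2 := h1 n (List.mem_range.2 hn)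
  rw [Bool.and_eq_true, decide_eq_true_iff, List.all_eq_true] at h2
  refine ⟨h2.1, fun y hy a ha => ?_⟩
  have h3 := h2.2 y (List.mem_range.2 hy)
  rw [List.all_eq_true] at h3
  have h4 := h3 a (List.mem_range.2 ha)
  exact beq_iff_eq.1 h4

theorem transport (h0 : K0) (hI : S_INV.{u}) {X : Type u} {G : Subgroup (Equiv.Perm X)}
    (z z' : ℕ → X) (c5 c6 : ℕ) (g : Equiv.Perm X) (hg : g ∈ G) (e : ℕ × ℕ) (he : e ∈ HL.flatten ++ HF)
    (hgz : ∀ i < 6, g (z i) = z' (dg e.1 i))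
    (hz : ∀ i < 6, Tot G (fun k => z (sk i k)) (dg c6 i))
    (hz' : ∀ i < 6, Tot G (fun k => z' (sk i k)) (dg c5 i)) : inv2 c5 c6 e.1 e.2 = true := by
  obtain ⟨hok, hd6, hsk, hinj⟩ := h0 e he
  have hspec := okE_spec hok
  unfold inv2
  rw [List.all_eq_true]
  intro i hi'
  have hi : i < 6 := List.mem_range.1 hi'
  rw [beq_iff_eq]
  have hj := hd6 i hi
  have hT := hz' _ hj
  obtain ⟨hm, hs⟩ := hspec i hi _ hT.1
  -- renumber
  have h1 := (hI X G (fun k => z' (sk (dg e.1 i) k))).2.1 _ (ac e.2 i (dg c5 (dg e.1 i))) (fun k => sg e.1 i k) hT hm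
    (fun k hk => (hsk i hi k hk).1) (fun k hk l hl h => hinj i hi k hk l hl h) (fun y hy a ha => hs y hy a ha)
  have h2 : Tot G (fun k => g (z (sk i k))) (ac e.2 i (dg c5 (dg e.1 i))) := by
    refine tot_congr G (fun k hk => ?_) h1
    show z' (sk (dg e.1 i) (sg e.1 i k)) = g (z (sk i k))
    rw [(hsk i hi k hk).2, hgz _ (sk_lt hk)]
  have h3 := (hI X G (fun k => g (z (sk i k)))).1 _ h2 g⁻¹ (G.inv_mem hg)
  have h4 : Tot G (fun k => z (sk i k)) (ac e.2 i (dg c5 (dg e.1 i))) := by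
    refine tot_congr G (fun k _ => ?_) h3
    simp
  exact (hI X G (fun k => z (sk i k))).2.2 _ _ h4 (hz i hi)

theorem t_SIX (h0 : K0) (hI : S_INV.{u}) (hS : S_SWA.{u}) : S_SIX.{u} := by
  intro X G hG
  refine ⟨fun z z' c5 c6 g hg e he h1 h2 h3 => transport h0 hI z z' c5 c6 g hg e he h1 h2 h3, ?_⟩
  intro z c hz hT
  unfold swapOK
  rw [List.all_eq_true]
  intro L hL
  obtain ⟨e, heL, g, hg, hgz⟩ := hS X G z hG hz L hL
  rw [List.any_eq_true]
  refine ⟨e, heL, ?_⟩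
  exact transport h0 hI z z c c g hg e (List.mem_append_left _ (List.mem_flatten.2 ⟨L, hL, heL⟩)) hgz hT hT

end Pool.Agent.L0h81.GT
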